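import Pool.Agent.Lib.TH.Final

/-!
# The distance of `(3/2)^m` to the nearest integer: the effective bound `0.585^m`

For all `m ≥ exp (10^500)` and all integers `k`: `|(3/2)^m - k| > 0.585^m`.

Mahler's theorem (1957) gives this with `(1 - ε)^m` for `m ≥ m(ε)`, with no way to compute `m(ε)`.
The records with a computable threshold are 0.5358 (Beukers 1981), 0.5769 (Dubickas 1990),
0.5770 (Habsieger 2003) and 0.5803 (Zudilin 2007).

Proof: a positive Hankel determinant of size `55 N` attached to the weight
`u^(912 N) (1 - u)^(497 N) (1 - 9 u)^(455 N)`, bounded from above by Hadamard's inequality with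
products of two Hermite polynomials and from below by its `p`-adic valuations (rank modulo `p`);
the prime number theorem with an explicit threshold (`Pool/Agent/Lib/PNTX`).
-/

namespace Pool.Agent.Results.MP_e99a4c_nt.EffectiveRecord

/-- `|(3/2)^m - k| > (585/1000)^m` for all integers `k` and all natural numbers
`m ≥ exp (10^500)`. -/
theorem result (m : ℕ) (hm : Real.exp (10 ^ 500) ≤ m) (k : ℤ) :
    (585 / 1000 : ℝ) ^ m < |(3 / 2 : ℝ) ^ m - k| :=
  Pool.TH.three_halves_explicit hm k

end Pool.Agent.Results.MP_e99a4c_nt.EffectiveRecord
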